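import Pool.Agent.Y39.DH.Multi
import Pool.Agent.TH456.TM.E
import Pool.Agent.TH456.TM.AlgDep

/-!
# A joint measure of approximation from an algebraic dependence

If `θ` has a transcendence measure of polynomial type in every degree and is algebraic over
`ℤ[x_1, …, x_J]` then `x_1, …, x_J` have a measure of simultaneous approximation.
-/

set_option autoImplicit false

namespace Pool.Agent.Y39.DH

open Finset Polynomial
open Pool.Agent.Y39.DG

/-- `θ` has a transcendence measure of polynomial type in every degree: for every `D` there are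
`κ` and `c > 0` such that `|P(θ)| ≥ c H ^ (-κ)` for all non-zero integer polynomials `P` of degree
at most `D` whose coefficients are at most `H` in absolute value. -/
def HasMeasure (θ : ℝ) : Prop :=
  ∀ D : ℕ, ∃ κ c : ℝ, 0 ≤ κ ∧ 0 < c ∧ ∀ P : ℤ[X], P ≠ 0 → P.natDegree ≤ D →
    ∀ H : ℝ, 1 ≤ H → (∀ j, |(P.coeff j : ℝ)| ≤ H) → c ≤ H ^ κ * |aeval θ P|

lemma lip {J : ℕ} (f : MvPolynomial (Fin J) ℤ) (R : ℝ) (hR : 0 ≤ R) : ∃ K : ℝ, 0 ≤ K ∧
    ∀ x y : Fin J → ℝ, (∀ j, |x j| ≤ R) → (∀ j, |y j| ≤ R) → ∀ δ : ℝ, 0 ≤ δ →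
      (∀ j, |x j - y j| ≤ δ) → |MvPolynomial.aeval x f - MvPolynomial.aeval y f| ≤ K * δ := by
  induction f using MvPolynomial.induction_on with
  | C a =>
    refine ⟨0, le_rfl, fun x y _ _ δ _ _ => ?_⟩
    simp
  | add p q hp hq =>
    obtain ⟨K1, hK1, h1⟩ := hp
    obtain ⟨K2, hK2, h2⟩ := hq
    refine ⟨K1 + K2, by positivity, fun x y hx hy δ hδ h => ?_⟩
    have e1 := h1 x y hx hy δ hδ h
    have e2 := h2 x y hx hy δ hδ h
    rw [map_add, map_add, add_sub_add_comm, add_mul]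
    exact (abs_add_le _ _).trans (add_le_add e1 e2)
  | mul_X p i hp =>
    obtain ⟨K, hK, h1⟩ := hp
    obtain ⟨M, hM⟩ : ∃ M : ℝ, M = |MvPolynomial.aeval (fun _ => (0 : ℝ)) p| + K * R := ⟨_, rfl⟩
    have hM0 : 0 ≤ M := by rw [hM]; positivity
    refine ⟨R * K + M, by positivity, fun x y hx hy δ hδ h => ?_⟩
    have e1 := h1 x y hx hy δ hδ h
    have e2 : |MvPolynomial.aeval y p| ≤ M := by
      have e3 := h1 y (fun _ => 0) hy (fun j => by simpa using hR) R hR
        (fun j => by simpa using hy j)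
      have e4 := abs_sub_abs_le_abs_sub (MvPolynomial.aeval y p)
        (MvPolynomial.aeval (fun _ => (0 : ℝ)) p)
      rw [hM]
      linarith
    rw [map_mul, map_mul, MvPolynomial.aeval_X, MvPolynomial.aeval_X]
    have e5 : MvPolynomial.aeval x p * x i - MvPolynomial.aeval y p * y i =
        x i * (MvPolynomial.aeval x p - MvPolynomial.aeval y p) +
          (x i - y i) * MvPolynomial.aeval y p := by ring
    rw [e5]
    refine (abs_add_le _ _).trans ?_
    rw [abs_mul, abs_mul]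
    have e6 : |x i| * |MvPolynomial.aeval x p - MvPolynomial.aeval y p| ≤ R * (K * δ) :=
      mul_le_mul (hx i) e1 (abs_nonneg _) hR
    have e7 : |x i - y i| * |MvPolynomial.aeval y p| ≤ δ * M :=
      mul_le_mul (h i) e2 (abs_nonneg _) hδ
    linarith

lemma hom_int {J : ℕ} (f : MvPolynomial (Fin J) ℤ) (D : ℕ) (hD : f.totalDegree ≤ D)
    (p : Fin J → ℤ) (q : ℕ) (hq : 1 ≤ q) :
    ∃ z : ℤ, (z : ℝ) = (q : ℝ) ^ D * MvPolynomial.aeval (fun j => (p j : ℝ) / q) f := by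
  have hq0 : (q : ℝ) ≠ 0 := by
    have : (1 : ℝ) ≤ q := by exact_mod_cast hq
    linarith
  refine ⟨∑ m ∈ f.support, f.coeff m * ((∏ j, p j ^ m j) * (q : ℤ) ^ (D - ∑ j, m j)), ?_⟩
  rw [MvPolynomial.aeval_def, MvPolynomial.eval₂_eq', Finset.mul_sum]
  push_cast
  refine Finset.sum_congr rfl fun m hm => ?_
  have h1 : ∑ j, m j ≤ D := by
    refine le_trans ?_ hD
    have h2 := MvPolynomial.le_totalDegree hm
    rwa [Finsupp.sum_fintype _ _ (fun _ => rfl)] at h2
  have h2 : ∏ j, ((p j : ℝ) / q) ^ m j = (∏ j, (p j : ℝ) ^ m j) / (q : ℝ) ^ (∑ j, m j) := by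
    rw [← Finset.prod_pow_eq_pow_sum, ← Finset.prod_div_distrib]
    exact Finset.prod_congr rfl fun j _ => div_pow _ _ _
  have h3 : (q : ℝ) ^ D = (q : ℝ) ^ (D - ∑ j, m j) * (q : ℝ) ^ (∑ j, m j) := by
    rw [← pow_add, Nat.sub_add_cancel h1]
  rw [h2, h3, algebraMap_int_eq, eq_intCast]
  field_simp

/-- The simultaneous measure, from a polynomial relation. -/
theorem sim_of_poly {J : ℕ} (x : Fin J → ℝ) (θ : ℝ) (hθ : HasMeasure θ)
    (P : Polynomial (MvPolynomial (Fin J) ℤ))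
    (hP : ∑ i ∈ range (P.natDegree + 1), MvPolynomial.aeval x (P.coeff i) * θ ^ i = 0) (i0 : ℕ)
    (hi0 : MvPolynomial.aeval x (P.coeff i0) ≠ 0) :
    ∃ μ c0 : ℝ, 1 < μ ∧ 0 < c0 ∧ Simultaneous x μ c0 := by
  obtain ⟨N, hN⟩ : ∃ N, N = P.natDegree := ⟨_, rfl⟩
  rw [← hN] at hP
  have hi0N : i0 ≤ N := by
    by_contra h
    push Not at h
    apply hi0
    rw [coeff_eq_zero_of_natDegree_lt (by omega), map_zero]
  obtain ⟨κ, c, hκ, hc, hm⟩ := hθ N
  obtain ⟨D, hD⟩ : ∃ D, D = 1 + ∑ i ∈ range (N + 1), (P.coeff i).totalDegree := ⟨_, rfl⟩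
  have hDi : ∀ i ∈ range (N + 1), (P.coeff i).totalDegree ≤ D := by
    intro i hi
    have := Finset.single_le_sum (f := fun i => (P.coeff i).totalDegree)
      (fun _ _ => Nat.zero_le _) hi
    omega
  have hD1 : 1 ≤ D := by omega
  obtain ⟨R, hR⟩ : ∃ R : ℝ, R = 1 + ∑ j, |x j| := ⟨_, rfl⟩
  have hR1 : 1 ≤ R := by
    rw [hR]
    have : 0 ≤ ∑ j, |x j| := Finset.sum_nonneg fun _ _ => abs_nonneg _
    linarith
  have hxR : ∀ j, |x j| + 1 ≤ R := by
    intro j
    have := Finset.single_le_sum (f := fun j => |x j|) (fun _ _ => abs_nonneg _) (mem_univ j)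
    rw [hR]
    linarith
  choose K hK0 hK using fun i : ℕ => lip (P.coeff i) R (by linarith)
  obtain ⟨A, hA⟩ : ∃ A : ℝ, A = 1 + ∑ i ∈ range (N + 1),
    (|MvPolynomial.aeval x (P.coeff i)| + K i) := ⟨_, rfl⟩
  obtain ⟨B, hB⟩ : ∃ B : ℝ, B = 1 + ∑ i ∈ range (N + 1), K i * |θ| ^ i := ⟨_, rfl⟩
  have hAi : ∀ i ∈ range (N + 1), |MvPolynomial.aeval x (P.coeff i)| + K i ≤ A := by
    intro i hi
    have := Finset.single_le_sum (f := fun i => |MvPolynomial.aeval x (P.coeff i)| + K i)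
      (fun i _ => add_nonneg (abs_nonneg _) (hK0 i)) hi
    rw [hA]
    linarith
  have hA1 : 1 ≤ A := by
    rw [hA]
    have : 0 ≤ ∑ i ∈ range (N + 1), (|MvPolynomial.aeval x (P.coeff i)| + K i) :=
      Finset.sum_nonneg fun i _ => add_nonneg (abs_nonneg _) (hK0 i)
    linarith
  have hB1 : 1 ≤ B := by
    rw [hB]
    have : 0 ≤ ∑ i ∈ range (N + 1), K i * |θ| ^ i :=
      Finset.sum_nonneg fun i _ => mul_nonneg (hK0 i) (by positivity)
    linarith
  obtain ⟨c1, hc1⟩ : ∃ c1 : ℝ, c1 = |MvPolynomial.aeval x (P.coeff i0)| / (K i0 + 1) := ⟨_, rfl⟩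
  have hK10 : 0 < K i0 + 1 := by linarith [hK0 i0]
  have hc10 : 0 < c1 := by rw [hc1]; exact div_pos (abs_pos.mpr hi0) hK10
  have hAκ : 0 < A ^ κ := Real.rpow_pos_of_pos (by linarith) _
  obtain ⟨c0, hc0⟩ : ∃ c0 : ℝ, c0 = min (min 1 c1) (c / (A ^ κ * B)) / 2 := ⟨_, rfl⟩
  have hB0 : 0 < B := by linarith
  have hc00 : 0 < c0 := by rw [hc0]; positivity
  have hc01 : c0 ≤ 1 / 2 := by
    rw [hc0]
    have := (min_le_left (min 1 c1) (c / (A ^ κ * B))).trans (min_le_left 1 c1)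
    linarith
  have hc02 : c0 < c1 := by
    rw [hc0]
    have := (min_le_left (min 1 c1) (c / (A ^ κ * B))).trans (min_le_right 1 c1)
    linarith
  have hc03 : c0 < c / (A ^ κ * B) := by
    rw [hc0]
    have := min_le_right (min 1 c1) (c / (A ^ κ * B))
    have h2 : 0 < c / (A ^ κ * B) := by positivity
    linarith
  have hDR : (1 : ℝ) ≤ D := by exact_mod_cast hD1
  refine ⟨D * (κ + 1) + 1, c0, by nlinarith, hc00, fun q hq p => ?_⟩
  by_contra hcon
  push Not at hcon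
  have hqR : (1 : ℝ) ≤ q := by exact_mod_cast hq
  have hq0 : (0 : ℝ) < q := by linarith
  obtain ⟨Q, hQ⟩ : ∃ Q : ℝ, Q = (q : ℝ) ^ ((D : ℝ) * (κ + 1) + 1 - 1) := ⟨_, rfl⟩
  have hQ1 : 1 ≤ Q := by
    rw [hQ]
    exact Real.one_le_rpow hqR (by nlinarith)
  have hQ0 : 0 < Q := by linarith
  rw [← hQ] at hcon
  obtain ⟨δ, hδ⟩ : ∃ δ : ℝ, δ = c0 / Q := ⟨_, rfl⟩
  have hδ0 : 0 < δ := by rw [hδ]; positivity
  have hδc : δ ≤ c0 := by rw [hδ]; exact div_le_self hc00.le hQ1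
  have hpx : ∀ j, |q * x j - p j| ≤ δ := by
    intro j
    rw [hδ, le_div_iff₀ hQ0, mul_comm]
    exact (hcon j).le
  have hy : ∀ j, |x j - (p j : ℝ) / q| ≤ δ / q := by
    intro j
    rw [le_div_iff₀ hq0]
    have h1 : |x j - (p j : ℝ) / q| * q = |q * x j - p j| := by
      have h2 : q * x j - p j = (x j - (p j : ℝ) / q) * q := by field_simp
      rw [h2, abs_mul, abs_of_pos hq0]
    rw [h1]
    exact hpx j
  have hδq0 : 0 ≤ δ / q := by positivity
  have hδq1 : δ / q ≤ 1 := by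
    rw [div_le_one hq0]; linarith
  have hyR : ∀ j, |(p j : ℝ) / q| ≤ R := by
    intro j
    have h1 := abs_sub_abs_le_abs_sub ((p j : ℝ) / q) (x j)
    rw [abs_sub_comm] at h1
    have h2 := hy j
    have h3 := hxR j
    linarith
  have hxR' : ∀ j, |x j| ≤ R := fun j => by linarith [hxR j]
  have hlip : ∀ i, |MvPolynomial.aeval x (P.coeff i) -
      MvPolynomial.aeval (fun j => (p j : ℝ) / q) (P.coeff i)| ≤ K i * (δ / q) := fun i =>
    hK i x _ hxR' hyR (δ / q) hδq0 hy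
  choose! z hz using fun (i : ℕ) (hi : i ∈ range (N + 1)) => hom_int (P.coeff i) D (hDi i hi) p q hq
  obtain ⟨Φ, hΦ⟩ : ∃ Φ : ℤ[X], Φ = ∑ i ∈ range (N + 1), C (z i) * X ^ i := ⟨_, rfl⟩
  have hcoeff : ∀ i, Φ.coeff i = if i ∈ range (N + 1) then z i else 0 := by
    intro i
    rw [hΦ, finsetSum_coeff]
    simp only [coeff_C_mul_X_pow]
    rw [Finset.sum_ite_eq]
  have hdeg : Φ.natDegree ≤ N := by
    rw [natDegree_le_iff_coeff_eq_zero]
    intro i hi
    rw [hcoeff, if_neg (by rw [mem_range]; omega)]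
  have hqD : (1 : ℝ) ≤ (q : ℝ) ^ D := one_le_pow₀ hqR
  have hqD0 : (0 : ℝ) < (q : ℝ) ^ D := by linarith
  have hbound : ∀ i, |(Φ.coeff i : ℝ)| ≤ A * (q : ℝ) ^ D := by
    intro i
    rw [hcoeff]
    split_ifs with hi
    · rw [hz i hi, abs_mul, abs_of_pos hqD0, mul_comm]
      refine mul_le_mul_of_nonneg_right ?_ hqD0.le
      have h1 := hlip i
      have h2 := abs_sub_abs_le_abs_sub (MvPolynomial.aeval (fun j => (p j : ℝ) / q) (P.coeff i))
        (MvPolynomial.aeval x (P.coeff i))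
      rw [abs_sub_comm] at h2
      have h3 : K i * (δ / q) ≤ K i := mul_le_of_le_one_right (hK0 i) hδq1
      have h4 := hAi i hi
      linarith
    · simp only [Int.cast_zero, abs_zero]
      positivity
  have hne : Φ ≠ 0 := by
    intro h
    have h1 : Φ.coeff i0 = 0 := by rw [h, coeff_zero]
    have hi0' : i0 ∈ range (N + 1) := by rw [mem_range]; omega
    rw [hcoeff, if_pos hi0'] at h1
    have h2 := hz i0 hi0'
    rw [h1, Int.cast_zero] at h2
    have h3 : MvPolynomial.aeval (fun j => (p j : ℝ) / q) (P.coeff i0) = 0 := by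
      rcases mul_eq_zero.mp h2.symm with h | h
      · exact absurd h hqD0.ne'
      · exact h
    have h4 := hlip i0
    rw [h3, sub_zero] at h4
    have h5 : K i0 * (δ / q) ≤ (K i0 + 1) * δ := by
      have h6 : δ / q ≤ δ := div_le_self hδ0.le hqR
      nlinarith [hK0 i0]
    have h6 : (K i0 + 1) * δ < (K i0 + 1) * c1 := mul_lt_mul_of_pos_left (by linarith) hK10
    have h7 : (K i0 + 1) * c1 = |MvPolynomial.aeval x (P.coeff i0)| := by
      rw [hc1]; field_simp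
    linarith
  have hval : |aeval θ Φ| ≤ B * (q : ℝ) ^ D * (δ / q) := by
    have h1 : aeval θ Φ = - ((q : ℝ) ^ D * ∑ i ∈ range (N + 1),
        (MvPolynomial.aeval x (P.coeff i) -
          MvPolynomial.aeval (fun j => (p j : ℝ) / q) (P.coeff i)) * θ ^ i) := by
      have h2 : aeval θ Φ = ∑ i ∈ range (N + 1), (z i : ℝ) * θ ^ i := by
        rw [hΦ, map_sum]
        refine Finset.sum_congr rfl fun i _ => ?_
        rw [map_mul, map_pow, aeval_X, aeval_C, algebraMap_int_eq, eq_intCast]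
      have h3 : ∑ i ∈ range (N + 1), (z i : ℝ) * θ ^ i = (q : ℝ) ^ D * ∑ i ∈ range (N + 1),
          MvPolynomial.aeval (fun j => (p j : ℝ) / q) (P.coeff i) * θ ^ i := by
        rw [Finset.mul_sum]
        refine Finset.sum_congr rfl fun i hi => ?_
        rw [hz i hi, mul_assoc]
      have h4 : ∑ i ∈ range (N + 1), (MvPolynomial.aeval x (P.coeff i) -
          MvPolynomial.aeval (fun j => (p j : ℝ) / q) (P.coeff i)) * θ ^ i =
          ∑ i ∈ range (N + 1), MvPolynomial.aeval x (P.coeff i) * θ ^ i -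
          ∑ i ∈ range (N + 1),
            MvPolynomial.aeval (fun j => (p j : ℝ) / q) (P.coeff i) * θ ^ i := by
        rw [← Finset.sum_sub_distrib]
        exact Finset.sum_congr rfl fun i _ => by ring
      rw [h2, h3, h4, hP]
      ring
    rw [h1, abs_neg, abs_mul, abs_of_pos hqD0]
    have h2 : |∑ i ∈ range (N + 1), (MvPolynomial.aeval x (P.coeff i) -
          MvPolynomial.aeval (fun j => (p j : ℝ) / q) (P.coeff i)) * θ ^ i| ≤ B * (δ / q) := by
      refine (Finset.abs_sum_le_sum_abs _ _).trans ?_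
      have h3 : ∑ i ∈ range (N + 1), |(MvPolynomial.aeval x (P.coeff i) -
          MvPolynomial.aeval (fun j => (p j : ℝ) / q) (P.coeff i)) * θ ^ i| ≤
          ∑ i ∈ range (N + 1), (K i * |θ| ^ i) * (δ / q) := by
        refine Finset.sum_le_sum fun i _ => ?_
        rw [abs_mul, abs_pow]
        have h4 := mul_le_mul_of_nonneg_right (hlip i) (pow_nonneg (abs_nonneg θ) i)
        calc _ ≤ K i * (δ / q) * |θ| ^ i := h4
          _ = _ := by ring
      refine h3.trans ?_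
      rw [← Finset.sum_mul]
      refine mul_le_mul_of_nonneg_right ?_ hδq0
      rw [hB]
      linarith
    calc (q : ℝ) ^ D * _ ≤ (q : ℝ) ^ D * (B * (δ / q)) := mul_le_mul_of_nonneg_left h2 hqD0.le
      _ = _ := by ring
  have hfin := hm Φ hne hdeg (A * (q : ℝ) ^ D) (by nlinarith) hbound
  have h1 : (A * (q : ℝ) ^ D) ^ κ * |aeval θ Φ| ≤
      (A * (q : ℝ) ^ D) ^ κ * (B * (q : ℝ) ^ D * (δ / q)) :=
    mul_le_mul_of_nonneg_left hval (Real.rpow_nonneg (by positivity) _)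
  have h2 : (A * (q : ℝ) ^ D) ^ κ * (B * (q : ℝ) ^ D * (δ / q)) = A ^ κ * B * (Q * δ) / q := by
    rw [Real.mul_rpow (by linarith) hqD0.le, hQ]
    have e1 : (q : ℝ) ^ ((D : ℝ) * (κ + 1) + 1 - 1) = ((q : ℝ) ^ D) ^ κ * (q : ℝ) ^ D := by
      rw [← Real.rpow_natCast, ← Real.rpow_mul hq0.le, ← Real.rpow_add hq0]
      congr 1
      ring
    rw [e1]
    ring
  have h3 : Q * δ = c0 := by rw [hδ]; field_simp
  rw [h2, h3] at h1
  have h4 : A ^ κ * B * c0 / q ≤ A ^ κ * B * c0 := div_le_self (by positivity) hqR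
  have h5 : A ^ κ * B * c0 < c := by
    rw [lt_div_iff₀ (by positivity)] at hc03
    linarith
  linarith

/-- The simultaneous measure, from an algebraic dependence. -/
theorem sim_of_algebraic {J : ℕ} (x : Fin J → ℝ) (θ : ℝ) (hθ : HasMeasure θ)
    (h : IsAlgebraic (Algebra.adjoin ℤ (Set.range x)) θ) :
    ∃ μ c0 : ℝ, 1 < μ ∧ 0 < c0 ∧ Simultaneous x μ c0 := by
  obtain ⟨A, hA⟩ : ∃ A : Subalgebra ℤ ℝ, A = Algebra.adjoin ℤ (Set.range x) := ⟨_, rfl⟩
  rw [← hA] at h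
  obtain ⟨p, hp, hpθ⟩ := h
  have hxA : ∀ j, x j ∈ A := fun j => by rw [hA]; exact Algebra.subset_adjoin ⟨j, rfl⟩
  set x' : Fin J → A := fun j => ⟨x j, hxA j⟩ with hx'
  set φ : MvPolynomial (Fin J) ℤ →ₐ[ℤ] A := MvPolynomial.aeval x' with hφ
  have hφx : ∀ f : MvPolynomial (Fin J) ℤ, ((φ f : A) : ℝ) = MvPolynomial.aeval x f := by
    intro f
    have h1 : ((φ f : A) : ℝ) = A.val (MvPolynomial.aeval x' f) := rfl
    rw [h1, MvPolynomial.comp_aeval_apply]
    rfl
  have hsurj : Function.Surjective φ := by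
    rintro ⟨z, hz⟩
    rw [hA, Algebra.adjoin_range_eq_range_aeval] at hz
    obtain ⟨f, hf⟩ := hz
    exact ⟨f, Subtype.ext (by rw [hφx]; exact hf)⟩
  obtain ⟨B, hB⟩ := Polynomial.map_surjective (φ : MvPolynomial (Fin J) ℤ →+* A) hsurj p
  have hco : ∀ i, ((p.coeff i : A) : ℝ) = MvPolynomial.aeval x (B.coeff i) := by
    intro i
    rw [← hB, coeff_map]
    exact hφx _
  have hdeg : p.natDegree < B.natDegree + 1 := by
    rw [← hB]
    exact Nat.lt_succ_of_le natDegree_map_le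
  rw [aeval_eq_sum_range' hdeg] at hpθ
  obtain ⟨i0, hi0⟩ : ∃ i, p.coeff i ≠ 0 := by
    by_contra hcon
    push Not at hcon
    exact hp (Polynomial.ext fun i => by rw [hcon i, coeff_zero])
  refine sim_of_poly x θ hθ B ?_ i0 ?_
  · rw [← hpθ]
    refine Finset.sum_congr rfl fun i _ => ?_
    rw [← hco]
    rfl
  · rw [← hco]
    intro h
    exact hi0 (Subtype.ext h)

lemma hasMeasure_of {θ : ℝ} (h : Pool.Agent.TH456.TM.MeasT (θ : ℂ)) : HasMeasure θ := by
  intro D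
  obtain ⟨κ, c, hκ, hc, hm⟩ := h D
  refine ⟨κ, c, hκ, hc, fun P hP hD H hH hb => ?_⟩
  rw [Pool.Agent.TH456.TM.abs_aeval]
  exact hm P hP hD H hH hb

lemma hasMeasure_e : HasMeasure (Real.exp 1) := hasMeasure_of Pool.Agent.TH456.TM.measT_e

lemma hasMeasure_pi : HasMeasure Real.pi := hasMeasure_of Pool.Agent.TH456.TM.measT_pi

lemma hasMeasure_log (q : ℚ) (hq : 0 < q) (hq1 : q ≠ 1) : HasMeasure (Real.log q) :=
  hasMeasure_of (Pool.Agent.TH456.TM.measT_real_log q hq hq1)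

end Pool.Agent.Y39.DH
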