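import Pool.Agent.Y39.DG.Basic

/-!
# Joint linear complexity of the digits of finitely many numbers with a joint measure
-/

set_option autoImplicit false

namespace Pool.Agent.Y39.DH

open Finset Polynomial
open Pool.Agent.Y39.DG

/-- the joint `k`-error linear complexity of the first `L` digits of the numbers `x j` in base `b`:
the least order of a common recurrence for the first `L` terms of sequences of integers between `-b`
and `b` which agree with the digits of all the `x j` in all but at most `k` of the places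
`1, …, L` -/
noncomputable def jointComplexity (b : ℕ) {J : ℕ} (x : Fin J → ℝ) (k L : ℕ) : ℕ :=
  sInf {m | ∃ (s : Fin J → ℕ → ℤ) (c : ℕ → ℚ), (∀ j i, |s j i| ≤ b) ∧
    ((Icc 1 L).filter fun i => ∃ j, s j i ≠ digit b (x j) i).card ≤ k ∧
    ∀ j, Recurrence (s j) c L m}

/-- the measure of simultaneous approximation -/
def Simultaneous {J : ℕ} (x : Fin J → ℝ) (μ c0 : ℝ) : Prop :=
  ∀ q : ℕ, 1 ≤ q → ∀ p : Fin J → ℤ, ∃ j : Fin J, c0 ≤ (q : ℝ) ^ (μ - 1) * |q * x j - p j|

/-- the main inequality -/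
theorem joint (μ c0 : ℝ) (hμ : 1 < μ) (hc0 : 0 < c0) {J : ℕ} (x : Fin J → ℝ)
    (hM : Simultaneous x μ c0) :
    ∃ C : ℝ, 0 < C ∧ ∀ (b : ℕ), 2 ≤ b →
    ∀ (k L m : ℕ) (a : Fin J → ℕ → ℤ) (c : ℕ → ℚ), (∀ j i, |a j i| ≤ b) →
    ((Icc 1 L).filter fun i => ∃ j, a j i ≠ digit b (x j) i).card ≤ k →
    (∀ j, Recurrence (a j) c L m) →
      (L : ℝ) ≤ (∑ i ∈ range (k + 1), μ ^ (i + 1)) * F C m := by
  obtain ⟨C, hC0, hC⟩ := Pool.Agent.Y928.JL.uniform μ c0 0 hμ hc0 le_rfl
  refine ⟨C, hC0, fun b hb k L m a c ha hE hr => ?_⟩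
  have h := hC J x (fun q hq p => by
      obtain ⟨j, hj⟩ := hM q hq p
      refine ⟨j, ?_⟩
      rw [Real.rpow_zero, mul_one]
      exact hj) b hb L m k
    (fun j i => a j (i + 1))
    (by
      intro j i _
      exact ha _ _)
    ⟨((Icc 1 L).filter fun i => ∃ j, a j i ≠ digit b (x j) i).image (· - 1),
      Finset.card_image_le.trans hE, by
        intro i hi hiE
        have hnot : ¬ ∃ j, a j (i + 1) ≠ digit b (x j) (i + 1) := by
          intro hne
          apply hiE
          rw [mem_image]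
          exact ⟨i + 1, by
            rw [mem_filter, mem_Icc]
            exact ⟨⟨by omega, by omega⟩, hne⟩, by omega⟩
        push Not at hnot
        intro j
        exact hnot j⟩
    ⟨c, by
      intro j i hi
      have h1 := hr j (i + 1) (by omega) (by omega)
      rw [show i + m + 1 = i + 1 + m by ring, h1]
      exact Finset.sum_congr rfl fun l _ => by rw [show i + l + 1 = i + 1 + l by ring]⟩
  exact h

lemma joint_attained (b : ℕ) (hb : 2 ≤ b) {J : ℕ} (x : Fin J → ℝ) (k L : ℕ) :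
    ∃ (s : Fin J → ℕ → ℤ) (c : ℕ → ℚ), (∀ j i, |s j i| ≤ b) ∧
    ((Icc 1 L).filter fun i => ∃ j, s j i ≠ digit b (x j) i).card ≤ k ∧
    ∀ j, Recurrence (s j) c L (jointComplexity b x k L) := by
  refine Nat.sInf_mem (s := {m | ∃ (s : Fin J → ℕ → ℤ) (c : ℕ → ℚ), (∀ j i, |s j i| ≤ b) ∧
    ((Icc 1 L).filter fun i => ∃ j, s j i ≠ digit b (x j) i).card ≤ k ∧
    ∀ j, Recurrence (s j) c L m}) ?_
  exact ⟨L, fun j => digit b (x j), fun _ => 0, fun j => dig_abs b hb (x j), by simp,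
    fun j i h1 h2 => by omega⟩

/-- a monic polynomial which kills a sequence on `1, …, L - m` -/
lemma rec_of_monic (R : ℚ[X]) (m : ℕ) (hR : R.Monic) (hm : R.natDegree = m) (a : ℕ → ℤ) (L : ℕ)
    (h : ∀ i : ℕ, 1 ≤ i → i + m ≤ L → (aeval S R) (fun i => (a i : ℚ)) i = 0) :
    Recurrence a (fun j => - R.coeff j) L m := by
  intro i hi hiL
  have h3 := h i hi hiL
  rw [aeval_S _ _ i (m + 1) (by omega), Finset.sum_range_succ] at h3
  have h4 : R.coeff m = 1 := by
    have h5 := hR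
    rw [Monic, leadingCoeff, hm] at h5
    exact h5
  rw [h4, one_mul] at h3
  have e : ∑ j ∈ range m, - R.coeff j * (a (i + j) : ℚ) =
      - ∑ j ∈ range m, R.coeff j * (a (i + j) : ℚ) := by
    rw [← Finset.sum_neg_distrib]
    exact Finset.sum_congr rfl fun j _ => by ring
  rw [e]
  linarith

/-- a common recurrence whose order is the sum of the orders -/
theorem common_all {J : ℕ} (s : Fin J → ℕ → ℤ) (c : Fin J → ℕ → ℚ) (L : ℕ) (m : Fin J → ℕ)
    (h : ∀ j, Recurrence (s j) (c j) L (m j)) :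
    ∃ d : ℕ → ℚ, ∀ j, Recurrence (s j) d L (∑ j, m j) := by
  classical
  obtain ⟨R, hR⟩ : ∃ R : ℚ[X], R = ∏ j, poly (c j) (m j) := ⟨_, rfl⟩
  have hRm : R.Monic := by
    rw [hR]; exact monic_prod_of_monic _ _ fun j _ => poly_monic _ _
  have hRd : R.natDegree = ∑ j, m j := by
    rw [hR, natDegree_prod_of_monic _ _ fun j _ => poly_monic _ _]
    exact Finset.sum_congr rfl fun j _ => poly_natDegree _ _
  refine ⟨fun i => - R.coeff i, fun j => rec_of_monic R _ hRm hRd _ _ ?_⟩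
  have h1 := (rec_iff _ _ _ _).mp (h j)
  have hQ : (∏ l ∈ univ.erase j, poly (c l) (m l)).natDegree = ∑ l ∈ univ.erase j, m l := by
    rw [natDegree_prod_of_monic _ _ fun j _ => poly_monic _ _]
    exact Finset.sum_congr rfl fun j _ => poly_natDegree _ _
  have h2 := mul_vanish (poly (c j) (m j)) (∏ l ∈ univ.erase j, poly (c l) (m l)) _ L (m j) _
    hQ h1
  have e1 : (∏ l ∈ univ.erase j, poly (c l) (m l)) * poly (c j) (m j) = R := by
    rw [hR, mul_comm, Finset.mul_prod_erase univ (fun l => poly (c l) (m l)) (mem_univ j)]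
  have e2 : m j + ∑ l ∈ univ.erase j, m l = ∑ l, m l :=
    Finset.add_sum_erase univ m (mem_univ j)
  rw [e1, e2] at h2
  exact h2

/-- the complexities -/
theorem complexities (μ c0 : ℝ) (hμ : 1 < μ) (hc0 : 0 < c0) {J : ℕ} (x : Fin J → ℝ)
    (hM : Simultaneous x μ c0) :
    ∃ C : ℝ, 0 < C ∧ ∀ b : ℕ, 2 ≤ b → ∀ L : ℕ,
      (L : ℝ) ≤ μ * F C (∑ j, complexity b (x j) L) ∧
      ∀ k : ℕ, (L : ℝ) ≤ (∑ i ∈ range (k + 1), μ ^ (i + 1)) * F C (jointComplexity b x k L) := by
  obtain ⟨C, hC0, hC⟩ := joint μ c0 hμ hc0 x hM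
  refine ⟨C, hC0, fun b hb L => ⟨?_, fun k => ?_⟩⟩
  · choose c hc using fun j => attained b (x j) L
    obtain ⟨d, hd⟩ := common_all (fun j => digit b (x j)) c L _ hc
    have h := hC b hb 0 L _ _ d (fun j => dig_abs b hb _) (by simp) hd
    simpa using h
  · obtain ⟨a, c, h1, h2, h3⟩ := joint_attained b hb x k L
    exact hC b hb k L _ a c h1 h2 h3

end Pool.Agent.Y39.DH
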